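import Pool.Agent.J4.H93.BL.BL3
import Pool.Agent.Results.MP_e0aac0_nt.ColouredSignatureAndOmega

/-!
# `Ω(m + a)` and the coloured prime signature of `m + c` are independent along the sums `m = l + f(n)`

`f` is an integer polynomial of degree `d ≥ 2` with an arbitrary fixed leading coefficient and arbitrary lower
coefficients, `n` runs over the integers below `b ^ k` with restricted digits (the `i`-th digit lies in a given set `D i`
with at least two elements), `l` over the integers in `[-N, N]`, `N ≍ b ^ (d k)`, and both variables carry ARBITRARY bounded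
weights; for example `l` runs over an arbitrary set of integers and `n` over an arbitrary subset of the integers with
restricted digits. Then the values of `Ω` at `m + a` and the coloured prime signature of `m + c` (which determines
`Ω(m + c)`) are asymptotically independent for `m = l + f(n)`, at almost all scales `N`. The values `f(n)` are a very thin set
(at most `N ^ (1 / d)` integers). The starting theorem `ColouredSignatureAndOmega` is the case of the linear phases `e(α m)`,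
over all `m ≤ N`.

Proof: the sums `∑ w_l u_n F(l + f(n))` are small for every function `F` with small Fourier coefficients, uniformly in the
weights (`Pool.Agent.J4.H93.BL.dig_bil`), since a high moment of the exponential sum `∑ u_n e(f(n) θ)` over the
frequencies `θ = t / M` is bounded, for arbitrary weights `u_n`.
-/

set_option autoImplicit false

open Finset Filter Polynomial

namespace Pool.Agent.Results.MP_e0aac0_nt.DigitPolynomialSums

open Classical in
/-- `E` has logarithmic density zero -/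
def LogDensityZero (E : Set ℕ) : Prop := Tendsto
  (fun X : ℕ => (∑ n ∈ Icc 1 X, if n ∈ E then (1 : ℝ) / n else 0) / Real.log X) atTop (nhds 0)

/-- the coloured prime signature of `n`: the multiset of the pairs (colour of `p`, exponent of `p` in `n`) over the
primes `p` dividing `n` -/
def sig {K : ℕ} (χ : ℕ → Fin K) (n : ℕ) : Multiset (Fin K × ℕ) :=
  n.primeFactors.val.map (fun p => (χ p, n.factorization p))

/-- `Ω(n)`, the number of prime factors counted with multiplicity -/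
def Om (n : ℕ) : ℕ := ArithmeticFunction.cardFactors n

/-- `g` is multiplicative with values in the unit disc (on the positive integers) -/
def Mult (g : ℕ → ℂ) : Prop := (∀ n, 1 ≤ n → ‖g n‖ ≤ 1) ∧
  ∀ m n : ℕ, 1 ≤ m → 1 ≤ n → Nat.Coprime m n → g (m * n) = g m * g n

/-- the mean of `B(Ω(n))` over `1 ≤ n ≤ N` -/
noncomputable def mean (B : ℕ → ℂ) (N : ℕ) : ℂ := (∑ n ∈ Icc 1 N, B (Om n)) / N

/-- The integers below `b ^ k` whose `i`-th digit in base `b` lies in `D i`, for all `i < k`. -/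
def S (b : ℕ) (D : ℕ → Finset ℕ) (k : ℕ) : Finset ℕ :=
  (range (b ^ k)).filter (fun n : ℕ => ∀ i < k, n / b ^ i % b ∈ D i)

/-- `b ^ (d k) ≤ N ≤ R b ^ (d k)`, every `D i` contains at least two digits in base `b`, `f` has degree `d` and leading
coefficient `κ`, and `|f(n)| ≤ N` for the integers `n` of `S` -/
def Data (b d R : ℕ) (κ : ℤ) (k N : ℕ) (D : ℕ → Finset ℕ) (f : ℤ[X]) : Prop :=
  b ^ (d * k) ≤ N ∧ N ≤ R * b ^ (d * k) ∧ (∀ i < k, D i ⊆ range b ∧ 2 ≤ (D i).card) ∧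
    f.natDegree = d ∧ f.leadingCoeff = κ ∧ ∀ n ∈ S b D k, |f.eval (n : ℤ)| ≤ N

/-- `A(sig(m + c)) g(m + c) (B(Ω(m + a)) - M_N)` if `1 ≤ m ≤ N`, where `M_N` is the mean of `B(Ω(n))` over `n ≤ N`, and `0`
otherwise -/
noncomputable def term {K : ℕ} (χ : ℕ → Fin K) (A : Multiset (Fin K × ℕ) → ℂ) (B g : ℕ → ℂ) (a c N : ℕ) (m : ℤ) : ℂ :=
  if 1 ≤ m ∧ m ≤ N then A (sig χ (m.toNat + c)) * g (m.toNat + c) * (B (Om (m.toNat + a)) - mean B N) else 0

/-- the sum of `w(l) u(n) term(l + f(n))` over the integers `|l| ≤ N` and the integers `n` of `S` -/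
noncomputable def bilinear {K : ℕ} (χ : ℕ → Fin K) (A : Multiset (Fin K × ℕ) → ℂ) (B g : ℕ → ℂ) (a c N : ℕ)
    (b k : ℕ) (D : ℕ → Finset ℕ) (f : ℤ[X]) (w : ℤ → ℂ) (u : ℕ → ℂ) : ℂ :=
  ∑ l ∈ Icc (-(N : ℤ)) N, ∑ n ∈ S b D k, w l * u n * term χ A B g a c N (l + f.eval (n : ℤ))

lemma mean_norm {B : ℕ → ℂ} (hB : ∀ l, ‖B l‖ ≤ 1) (N : ℕ) : ‖mean B N‖ ≤ 1 := by
  unfold mean
  rw [norm_div, Complex.norm_natCast]
  apply div_le_one_of_le₀ _ (Nat.cast_nonneg _)
  refine (norm_sum_le _ _).trans ?_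
  refine (sum_le_sum fun n _ => hB _).trans ?_
  simp

open Pool.Agent.H807R2.Dav in
/-- the bound in terms of the exponential sum -/
lemma main_bound (b d R : ℕ) (hb : 2 ≤ b) (hd : 2 ≤ d) (κ : ℤ) (hκ : κ ≠ 0) (ε : ℝ) (hε : 0 < ε) :
    ∃ Q : ℝ, 0 < Q ∧ ∀ (K : ℕ) (χ : ℕ → Fin K) (A : Multiset (Fin K × ℕ) → ℂ), (∀ s, ‖A s‖ ≤ 1) →
      ∀ B : ℕ → ℂ, (∀ l, ‖B l‖ ≤ 1) → ∀ g : ℕ → ℂ, Mult g → ∀ (a c N k : ℕ) (D : ℕ → Finset ℕ) (f : ℤ[X]),
      Data b d R κ k N D f → ∀ w : ℤ → ℂ, (∀ l, ‖w l‖ ≤ 1) → ∀ u : ℕ → ℂ, (∀ n, ‖u n‖ ≤ 1) →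
      ∀ η : ℝ, 0 ≤ η → (∀ α : ℝ, ‖∑ n ∈ Icc 1 N, A (sig χ (n + c)) * g (n + c) * (B (Om (n + a)) - mean B N) *
        Complex.exp (2 * Real.pi * (α * n : ℝ) * Complex.I)‖ ≤ η) →
      ‖bilinear χ A B g a c N b k D f w u‖ ≤ (Q * η + ε * N) * (S b D k).card := by
  obtain ⟨e, rfl⟩ : ∃ e, d = e + 2 := ⟨d - 2, by omega⟩
  obtain ⟨Q, hQ, h⟩ := Pool.Agent.J4.H93.BL.dig_bil b hb e κ hκ (R + 1) (by omega) (ε / 2) (by positivity)
  refine ⟨Q, hQ, fun K χ A hA B hB g hg a c N k D f hf w hw u hu η hη hF => ?_⟩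
  obtain ⟨hN1, hN2, hD, hf1, hf2, hfN⟩ := hf
  have hc : f.coeff (e + 2) = κ := by rw [← hf2, Polynomial.leadingCoeff, hf1]
  have h5 := Pool.Agent.J4.H93.PD.PF_poly f (e + 2) hf1.le
  rw [hc] at h5
  obtain ⟨F, hFdef⟩ : ∃ F : ℤ → ℂ, F = fun z => (1 / 2 : ℂ) * (A (sig χ (z.toNat + c)) * g (z.toNat + c) *
      (B (Om (z.toNat + a)) - mean B N)) := ⟨_, rfl⟩
  have h6 := h k N hN1 (hN2.trans (Nat.mul_le_mul_right _ (by omega))) D hD (fun n => f.eval (n : ℤ)) _ h5
    (fun n => Pool.Agent.J4.H93.PD.poly_val f n) hfN (Icc (-(N : ℤ)) N) (Subset.refl _) w (fun l _ => hw l) u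
    (fun n _ => hu n) F (by
      intro z hz
      rw [mem_Icc] at hz
      rw [hFdef]
      simp only
      rw [norm_mul, norm_mul, norm_mul]
      have g1 := hA (sig χ (z.toNat + c))
      have g2 := hg.1 (z.toNat + c) (by omega)
      have g3 : ‖B (Om (z.toNat + a)) - mean B N‖ ≤ 2 := by
        refine (norm_sub_le _ _).trans ?_
        linarith [hB (Om (z.toNat + a)), mean_norm hB N]
      have g4 : ‖A (sig χ (z.toNat + c))‖ * ‖g (z.toNat + c)‖ ≤ 1 := mul_le_one₀ g1 (norm_nonneg _) g2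
      have g5 : ‖(1 / 2 : ℂ)‖ = 1 / 2 := by norm_num
      rw [g5]
      have g6 := mul_le_mul g4 g3 (norm_nonneg _) zero_le_one
      linarith) (η / 2) (by positivity) (by
      intro α
      have e1 : ∑ z ∈ Icc (1 : ℤ) N, F z * ee ((z : ℝ) * α) = (1 / 2 : ℂ) *
          ∑ n ∈ Icc 1 N, A (sig χ (n + c)) * g (n + c) * (B (Om (n + a)) - mean B N) *
        Complex.exp (2 * Real.pi * (α * n : ℝ) * Complex.I) := by
        rw [mul_sum]
        symm
        refine sum_bij (fun n _ => (n : ℤ)) ?_ ?_ ?_ ?_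
        · intro n hn
          rw [mem_Icc] at hn ⊢
          omega
        · intro a _ b _ h
          exact_mod_cast h
        · intro z hz
          rw [mem_Icc] at hz
          exact ⟨z.toNat, by rw [mem_Icc]; omega, by omega⟩
        · intro n _
          rw [hFdef]
          simp only [Int.toNat_natCast]
          have e2 : ee (((n : ℤ) : ℝ) * α) = Complex.exp (2 * Real.pi * (α * n : ℝ) * Complex.I) := by
            unfold ee
            congr 1
            push_cast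
            ring
          rw [e2]
          ring
      rw [e1, norm_mul]
      have g5 : ‖(1 / 2 : ℂ)‖ = 1 / 2 := by norm_num
      rw [g5]
      linarith [hF α])
  have e3 : bilinear χ A B g a c N b k D f w u = 2 * ∑ l ∈ Icc (-(N : ℤ)) N,
      ∑ n ∈ Pool.Agent.TH872.Sq.SD b D k, w l * (u n * (if l + f.eval (n : ℤ) ∈ Icc (1 : ℤ) N then
        F (l + f.eval (n : ℤ)) else 0)) := by
    unfold bilinear
    rw [mul_sum]
    refine sum_congr rfl fun l _ => ?_
    rw [mul_sum]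
    refine sum_congr rfl fun n _ => ?_
    unfold term
    simp only [mem_Icc]
    split_ifs
    · rw [hFdef]
      simp only
      ring
    · ring
  rw [e3, norm_mul]
  have g5 : ‖(2 : ℂ)‖ = 2 := by norm_num
  rw [g5]
  have e4 : (S b D k).card = (Pool.Agent.TH872.Sq.SD b D k).card := rfl
  rw [e4]
  calc 2 * ‖∑ l ∈ Icc (-(N : ℤ)) N, ∑ n ∈ Pool.Agent.TH872.Sq.SD b D k, w l * (u n *
        (if l + f.eval (n : ℤ) ∈ Icc (1 : ℤ) N then F (l + f.eval (n : ℤ)) else 0))‖ ≤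
        2 * (Q * (η / 2) * (Pool.Agent.TH872.Sq.SD b D k).card + ε / 2 * N * (Pool.Agent.TH872.Sq.SD b D k).card) :=
        mul_le_mul_of_nonneg_left h6 (by norm_num)
    _ = _ := by ring

open Classical in
/-- **Theorem.** Let `b ≥ 2`, `d ≥ 2`, `R`, `κ ≠ 0` be fixed (base, degree, range, leading coefficient) and `a ≠ c`
shifts. For given `N` the data are: `k` with `b ^ (d k) ≤ N ≤ R b ^ (d k)`, sets `D i` of at least two digits in base `b`, an
integer polynomial `f` of degree `d` with leading coefficient `κ` (the lower coefficients are arbitrary) and `|f(n)| ≤ N` for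
all `n` in the set `S` of the integers below `b ^ k` with digits in the sets `D i`, and arbitrary weights `w(l)`, `|l| ≤ N`,
and `u(n)`, `n ∈ S`, bounded by `1`. Let `χ` be a colouring of the primes with `K` colours, `A` a function of the
signature, `B : ℕ → ℂ`, both bounded by `1`, and `g` multiplicative and bounded by `1`, all of them arbitrary; `M_N` is the
mean of `B(Ω(n))` over `n ≤ N`. Let `Σ_N` be the sum of
`w(l) u(n) A(sig(m + c)) g(m + c) (B(Ω(m + a)) - M_N)` over all `|l| ≤ N`, `n ∈ S` with `1 ≤ m ≤ N`, `m = l + f(n)`.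

(A) For `ε > 0` and `X ≥ X₀`, uniformly in `χ`, `A`, `B`, `g` and all the data (which may depend on `N`):
`∑_{N ≤ X} (1/N) |Σ_N| / (N |S|) ≤ ε log X`, where `N` runs over the integers for which there are such data.

(B) For given `χ`, `A`, `B` and `g` there is a set `E` of logarithmic density zero such that for all `a ≠ c`, `b`, `d`,
`R`, `κ`, `ε > 0` and all large `N` outside `E`, for all the data: `|Σ_N| ≤ ε N |S|`. -/
theorem result :
    (∀ K a c : ℕ, a ≠ c → ∀ b d R : ℕ, 2 ≤ b → 2 ≤ d → ∀ κ : ℤ, κ ≠ 0 → ∀ ε : ℝ, 0 < ε →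
      ∃ X₀ : ℕ, ∀ X : ℕ, X₀ ≤ X → ∀ χ : ℕ → Fin K, ∀ A : Multiset (Fin K × ℕ) → ℂ, (∀ s, ‖A s‖ ≤ 1) →
      ∀ B : ℕ → ℂ, (∀ l, ‖B l‖ ≤ 1) → ∀ g : ℕ → ℂ, Mult g →
      ∀ (k : ℕ → ℕ) (D : ℕ → ℕ → Finset ℕ) (f : ℕ → ℤ[X]) (w : ℕ → ℤ → ℂ) (u : ℕ → ℕ → ℂ),
      (∀ N l, ‖w N l‖ ≤ 1) → (∀ N n, ‖u N n‖ ≤ 1) →
        ∑ N ∈ (Icc 1 X).filter (fun N => Data b d R κ (k N) N (D N) (f N)),
          ‖bilinear χ A B g a c N b (k N) (D N) (f N) (w N) (u N)‖ / ((N : ℝ) ^ 2 * (S b (D N) (k N)).card) ≤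
            ε * Real.log X) ∧
    (∀ (K : ℕ) (χ : ℕ → Fin K) (A : Multiset (Fin K × ℕ) → ℂ), (∀ s, ‖A s‖ ≤ 1) → ∀ B : ℕ → ℂ, (∀ l, ‖B l‖ ≤ 1) →
      ∀ g : ℕ → ℂ, Mult g → ∃ E : Set ℕ, LogDensityZero E ∧ ∀ a c : ℕ, a ≠ c →
      ∀ b d R : ℕ, 2 ≤ b → 2 ≤ d → ∀ κ : ℤ, κ ≠ 0 → ∀ ε : ℝ, 0 < ε → ∃ N₀ : ℕ, ∀ N : ℕ, N₀ ≤ N → N ∉ E →
        ∀ (k : ℕ) (D : ℕ → Finset ℕ) (f : ℤ[X]), Data b d R κ k N D f →
        ∀ w : ℤ → ℂ, (∀ l, ‖w l‖ ≤ 1) → ∀ u : ℕ → ℂ, (∀ n, ‖u n‖ ≤ 1) →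
          ‖bilinear χ A B g a c N b k D f w u‖ ≤ ε * N * (S b D k).card) := by
  obtain ⟨hA', -, hC'⟩ := Pool.Agent.Results.MP_e0aac0_nt.ColouredSignatureAndOmega.result
  have hexp : ∀ (α : ℝ) (n : ℕ), Complex.exp (2 * Real.pi * (α * n : ℝ) * Complex.I) =
      Pool.Agent.Results.MP_e0aac0_nt.ColouredSignatureAndOmega.e (α * n) := fun α n => rfl
  refine ⟨fun K a c hac b d R hb hd κ hκ ε hε => ?_, fun K χ A hA B hB g hg => ?_⟩
  · obtain ⟨Q, hQ, hQb⟩ := main_bound b d R hb hd κ hκ (ε / 8) (by positivity)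
    obtain ⟨τ, hτ⟩ : ∃ τ, τ = ε / (8 * Q) := ⟨_, rfl⟩
    have hτ0 : 0 < τ := by rw [hτ]; positivity
    obtain ⟨X₀, h⟩ := hA' K a c hac (ε / (4 * Q)) (by positivity)
    refine ⟨X₀ + 3, fun X hX χ A hA B hB g hg k D f w u hw hu => ?_⟩
    -- the frequencies
    have hex : ∀ N : ℕ, ∃ α₀ : ℝ, 1 ≤ N → ∀ α : ℝ, ‖∑ n ∈ Icc 1 N, A (sig χ (n + c)) * g (n + c) *
        (B (Om (n + a)) - mean B N) * Complex.exp (2 * Real.pi * (α * n : ℝ) * Complex.I)‖ ≤
        ‖∑ n ∈ Icc 1 N, A (sig χ (n + c)) * g (n + c) *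
        (B (Om (n + a)) - mean B N) * Complex.exp (2 * Real.pi * (α₀ * n : ℝ) * Complex.I)‖ + τ * N := by
      intro N
      by_cases hN : 1 ≤ N
      swap
      · exact ⟨0, fun h => absurd h hN⟩
      obtain ⟨G, hG⟩ : ∃ G : ℝ → ℝ, G = fun α => ‖∑ n ∈ Icc 1 N, A (sig χ (n + c)) * g (n + c) *
        (B (Om (n + a)) - mean B N) * Complex.exp (2 * Real.pi * (α * n : ℝ) * Complex.I)‖ := ⟨_, rfl⟩
      have hN0 : (0 : ℝ) < N := by exact_mod_cast hN
      have hbd : BddAbove (Set.range G) := by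
        refine ⟨2 * N, ?_⟩
        rintro _ ⟨α, rfl⟩
        rw [hG]
        simp only
        refine (norm_sum_le _ _).trans ?_
        have h1 : ∀ n ∈ Icc 1 N, ‖A (sig χ (n + c)) * g (n + c) * (B (Om (n + a)) - mean B N) *
            Complex.exp (2 * Real.pi * (α * n : ℝ) * Complex.I)‖ ≤ 2 := by
          intro n hn
          rw [mem_Icc] at hn
          have g0 : ‖Complex.exp (2 * Real.pi * (α * n : ℝ) * Complex.I)‖ = 1 := by
            have : (2 * (Real.pi : ℂ) * ((α * n : ℝ) : ℂ) * Complex.I) = ((2 * Real.pi * (α * n) : ℝ) : ℂ) * Complex.I := by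
              push_cast; ring
            rw [this, Complex.norm_exp_ofReal_mul_I]
          rw [norm_mul, g0, mul_one, norm_mul, norm_mul]
          have g3 : ‖B (Om (n + a)) - mean B N‖ ≤ 2 := by
            refine (norm_sub_le _ _).trans ?_
            linarith [hB (Om (n + a)), mean_norm hB N]
          have g4 : ‖A (sig χ (n + c))‖ * ‖g (n + c)‖ ≤ 1 :=
            mul_le_one₀ (hA _) (norm_nonneg _) (hg.1 _ (by omega))
          have g6 := mul_le_mul g4 g3 (norm_nonneg _) zero_le_one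
          linarith
        refine (sum_le_sum h1).trans (le_of_eq ?_)
        rw [sum_const, Nat.card_Icc, nsmul_eq_mul, Nat.add_sub_cancel]
        ring
      obtain ⟨α₀, hα₀⟩ := exists_lt_of_lt_ciSup (show (⨆ α, G α) - τ * N < ⨆ α, G α by
        have : 0 < τ * N := by positivity
        linarith)
      refine ⟨α₀, fun _ α => ?_⟩
      have h2 := le_ciSup hbd α
      rw [hG] at hα₀ h2
      simp only at hα₀ h2
      linarith
    choose α₀ hα₀ using hex
    have h7 := h X (by omega) χ A hA B hB g hg α₀ (fun N => N) (fun N => le_rfl)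
    obtain ⟨Z, hZ⟩ : ∃ Z : ℕ → ℝ, Z = fun N => ‖∑ n ∈ Icc 1 N, A (sig χ (n + c)) * g (n + c) *
        (B (Om (n + a)) - mean B N) * Complex.exp (2 * Real.pi * (α₀ N * n : ℝ) * Complex.I)‖ := ⟨_, rfl⟩
    have h7' : ∑ N ∈ Icc 1 X, Z N / (N : ℝ) ^ 2 ≤ ε / (4 * Q) * Real.log X := by
      rw [hZ]
      exact h7
    have hZ0 : ∀ N, 0 ≤ Z N := by intro N; rw [hZ]; exact norm_nonneg _
    have h8 : ∀ N ∈ (Icc 1 X).filter (fun N => Data b d R κ (k N) N (D N) (f N)),
        ‖bilinear χ A B g a c N b (k N) (D N) (f N) (w N) (u N)‖ / ((N : ℝ) ^ 2 * (S b (D N) (k N)).card) ≤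
          Q * (Z N / (N : ℝ) ^ 2) + (ε / 4) * (1 / (N : ℝ)) := by
      intro N hN
      rw [mem_filter, mem_Icc] at hN
      have hN0 : (0 : ℝ) < N := by exact_mod_cast (by omega : 0 < N)
      have hS0 : (0 : ℝ) < (S b (D N) (k N)).card := by
        exact Pool.Agent.TH872.Sq.SD_card_pos b hb (D N) (k N) hN.2.2.2.1
      have h9 := hQb K χ A hA B hB g hg a c N (k N) (D N) (f N) hN.2 (w N) (hw N) (u N) (hu N)
        (Z N + τ * N) (by have := hZ0 N; positivity) (by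
          intro α
          have := hα₀ N hN.1.1 α
          rw [hZ]
          exact this)
      rw [div_le_iff₀ (by positivity)]
      refine h9.trans (le_of_eq ?_)
      rw [hτ]
      field_simp
      ring
    refine (sum_le_sum h8).trans ?_
    have h10 : ∑ N ∈ (Icc 1 X).filter (fun N => Data b d R κ (k N) N (D N) (f N)),
        (Q * (Z N / (N : ℝ) ^ 2) + (ε / 4) * (1 / (N : ℝ))) ≤
        ∑ N ∈ Icc 1 X, (Q * (Z N / (N : ℝ) ^ 2) + (ε / 4) * (1 / (N : ℝ))) := by
      apply sum_le_sum_of_subset_of_nonneg (filter_subset _ _)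
      intro N _ _
      have := hZ0 N
      positivity
    refine h10.trans ?_
    rw [sum_add_distrib, ← mul_sum, ← mul_sum]
    have h11 : ∑ N ∈ Icc 1 X, 1 / (N : ℝ) ≤ 1 + Real.log X := by
      have h12 := harmonic_le_one_add_log X
      rw [harmonic_eq_sum_Icc] at h12
      push_cast at h12
      simp only [one_div]
      exact h12
    have hX3 : (1 : ℝ) ≤ Real.log X := by
      have h13 : Real.exp 1 ≤ (X : ℝ) := by
        have h14 : (3 : ℝ) ≤ X := by exact_mod_cast (by omega : 3 ≤ X)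
        exact Real.exp_one_lt_d9.le.trans (by norm_num; linarith)
      calc (1 : ℝ) = Real.log (Real.exp 1) := (Real.log_exp 1).symm
        _ ≤ Real.log X := Real.log_le_log (Real.exp_pos 1) h13
    have h15 : Q * ∑ N ∈ Icc 1 X, Z N / (N : ℝ) ^ 2 ≤ Q * (ε / (4 * Q) * Real.log X) :=
      mul_le_mul_of_nonneg_left h7' hQ.le
    have h16 : Q * (ε / (4 * Q) * Real.log X) = ε / 4 * Real.log X := by
      field_simp
    have h17 : ε / 4 * ∑ N ∈ Icc 1 X, 1 / (N : ℝ) ≤ ε / 4 * (1 + Real.log X) :=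
      mul_le_mul_of_nonneg_left h11 (by positivity)
    nlinarith
  · obtain ⟨E, hE, h⟩ := hC' K χ A hA B hB g hg
    refine ⟨E, hE, fun a c hac b d R hb hd κ hκ ε hε => ?_⟩
    obtain ⟨Q, hQ, hQb⟩ := main_bound b d R hb hd κ hκ (ε / 2) (by positivity)
    obtain ⟨N₀, h1⟩ := h a c hac (ε / (2 * Q)) (by positivity)
    refine ⟨N₀, fun N hN hNE k D f hf w hw u hu => ?_⟩
    have h2 := hQb K χ A hA B hB g hg a c N k D f hf w hw u hu (ε / (2 * Q) * N) (by positivity) (by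
      intro α
      exact h1 N hN hNE α N le_rfl)
    refine h2.trans (le_of_eq ?_)
    field_simp
    ring

end Pool.Agent.Results.MP_e0aac0_nt.DigitPolynomialSums
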